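import Mathlib
import Pool.Agent.R473.DW.Mzw

set_option autoImplicit false

/-!
# Double zeta values of large weight: linear forms with `S`-unit coefficients, and digits
-/

namespace Pool.Agent.Results.MP_9206b6_nt.DoubleZetaDigits

open Pool.Agent.R473.DW Pool.Agent.Y760.RT Pool.Agent.TH507.ZS Pool.Agent.R473.TB

/-- the value of the Riemann zeta function at the integer `s ≥ 2` -/
noncomputable def zeta (s : ℕ) : ℝ := ∑' m : ℕ, 1 / ((m + 1 : ℕ) : ℝ) ^ s

/-- the double zeta value `ζ(r, s)`, the sum of `m ^ (-r) n ^ (-s)` over `m > n ≥ 1` -/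
noncomputable def dzeta (r s : ℕ) : ℝ :=
  ∑' m : ℕ, (∑ n ∈ Finset.Ico 1 (m + 1), 1 / (n : ℝ) ^ s) / ((m + 1 : ℕ) : ℝ) ^ r

/-- the numbers of weight `k`: `ζ(k)` for `s = 0` and `ζ(k - s, s)` for `s ≥ 1` -/
noncomputable def val (k s : ℕ) : ℝ := if s = 0 then zeta k else dzeta (k - s) s

/-- the `k`-th digit after the point of `x` in base `b` (`k = 0` is the first one) -/
noncomputable def digit (b : ℕ) (x : ℝ) (k : ℕ) : ℤ := ⌊(b : ℝ) ^ (k + 1) * x⌋ % b

/-- the number of different blocks of `n` consecutive digits of `x` in base `b` -/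
noncomputable def blocks (b : ℕ) (x : ℝ) (n : ℕ) : ℕ :=
  (Set.range fun i : ℕ => fun j : Fin n => digit b x (i + j)).ncard

/-- `D` is a sum of `R` terms `a ∏ p ^ k(p)` over `p ∈ S`, with integers `|a| ≤ R` and integers
`|k(p)| ≤ X` -/
def SUnitSum (S : Finset ℕ) (R : ℕ) (X : ℝ) (D : ℚ) : Prop :=
  ∃ (a : Fin R → ℤ) (k : Fin R → ℕ → ℤ), (∀ r, |a r| ≤ R) ∧ (∀ r, ∀ p ∈ S, |(k r p : ℝ)| ≤ X) ∧
    D = ∑ r, (a r : ℚ) * ∏ p ∈ S, (p : ℚ) ^ k r p

/-- the tails: `[]` for `s = 0` and `[s]` for `s ≥ 1` -/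
def tl (s : ℕ) : List ℕ+ := if s = 0 then [] else [Nat.succPNat (s - 1)]

lemma val_eq (k s : ℕ) : zt (tl s) (k - s) = val k s := by
  unfold val tl zt
  by_cases h : s = 0
  · subst h
    rw [if_pos rfl, if_pos rfl, List.map_nil, mzv, zeta]
    refine tsum_congr fun m => ?_
    rw [trunc, Nat.sub_zero]
  · have e : ((Nat.succPNat (s - 1) : ℕ+) : ℕ) = s := by
      rw [Nat.succPNat_coe]
      omega
    rw [if_neg h, if_neg h, List.map_cons, List.map_nil, e, mzv, dzeta]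
    refine tsum_congr fun m => ?_
    simp only [trunc]

/-- **Result.** For a weight `k` consider `ζ(k), ζ(k - 1, 1), ζ(k - 2, 2), …, ζ(k - h, h)`.
(1) For every finite set `S` of primes there is `K ≥ 2` such that for all `R`, `C` and `B > 1`, all
large `k`, all `D_0, …, D_h`, not all zero, which are sums of at most `R` `S`-units of height
exponential in `C k`, and all integers `p`:
`|D_0 ζ(k) + D_1 ζ(k - 1, 1) + … + D_h ζ(k - h, h) - p| > B ^ (-k) min(1, |D_i| K ^ (-k))` for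
every `i`.
(2) For every base `b` there is `κ` such that for all `ε > 0` and `C` and all large `k` no word of
at least `ε k` digits occurs at two different places, not both before `κ k`, in the first `C k`
digits of the expansions of these `h + 1` numbers in base `b`.
(3) For every base `b`, `s` and `C` the expansion of the `s`-th number in base `b` has more than
`C k` different blocks of `k` digits, for all large `k`. -/
theorem result (h : ℕ) :
    (∀ S : Finset ℕ, (∀ p ∈ S, p.Prime) → ∃ K : ℕ, 2 ≤ K ∧ ∀ (R : ℕ) (C B : ℝ), 1 < B →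
      ∃ k0 : ℕ, ∀ k : ℕ, k0 ≤ k → ∀ D : Fin (h + 1) → ℚ, (∀ s, SUnitSum S R (C * k) (D s)) →
      (∃ s, D s ≠ 0) → ∀ (p : ℤ) (i : Fin (h + 1)),
      (B ^ k)⁻¹ * min 1 (|(D i : ℝ)| / (K : ℝ) ^ k) <
        |∑ s : Fin (h + 1), (D s : ℝ) * val k s - p|) ∧
    (∀ b : ℕ, 2 ≤ b → ∃ κ : ℝ, 0 ≤ κ ∧ ∀ ε C : ℝ, 0 < ε → ∃ k0 : ℕ, ∀ k : ℕ, k0 ≤ k →
      ∀ (r s : Fin (h + 1)) (i j : ℕ), (i : ℝ) ≤ C * k → (j : ℝ) ≤ C * k →
      κ * k ≤ max i j → (r, i) ≠ (s, j) → ∃ l : ℕ, (l : ℝ) < ε * k ∧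
        digit b (val k r) (i + l) ≠ digit b (val k s) (j + l)) ∧
    (∀ b : ℕ, 2 ≤ b → ∀ (s : ℕ) (C : ℝ), ∃ k0 : ℕ, ∀ k : ℕ, k0 ≤ k →
      C * k < blocks b (val k s) k) := by
  have hinj : Function.Injective fun s : Fin (h + 1) => ((s : ℕ), tl s) := fun s s' hs =>
    Fin.ext (Prod.ext_iff.1 hs).1
  refine ⟨fun S hS => ?_, fun b hb => ?_, fun b hb s C => ?_⟩
  · obtain ⟨K, hK, hmain⟩ := wt_forms _ _ hinj hS
    simp only [val_eq] at hmain
    exact ⟨K, hK, hmain⟩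
  · obtain ⟨κ, hκ, hmain⟩ := wt_digits _ _ hinj hb
    simp only [val_eq] at hmain
    exact ⟨κ, hκ, hmain⟩
  · have h1 := wt_blocks (tl s) s hb C
    simp only [val_eq] at h1
    exact h1

end Pool.Agent.Results.MP_9206b6_nt.DoubleZetaDigits
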