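import Mathlib
import Pool.Agent.R404.WZ.Y

/-!
# Double zeta values with nearly equal arguments

Let `t < 1 / 3`, `γ < 1 - 2 t` and `ε > t`. For all large `k` the double zeta values `ζ(p, k - p)` with
`|p - (k - p)| ≤ k ^ t` satisfy no linear relation with integer coefficients of absolute value at
most `2 ^ (k ^ γ)`; the value of every nonzero combination is larger than `k ^ (-ε k)`.
-/

set_option autoImplicit false

namespace Pool.Agent.Results.MP_9206b6_nt.MiddleArguments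

/-- the double zeta value `ζ(p, q)`, the sum of `m ^ (-p) n ^ (-q)` over `m > n ≥ 1` -/
noncomputable def dz (p q : ℕ) : ℝ :=
  ∑' m : ℕ, (∑ n ∈ Finset.Ico 1 (m + 1), 1 / (n : ℝ) ^ q) / ((m + 1 : ℕ) : ℝ) ^ p

/-- the first arguments `p` with `|p - (k - p)| ≤ k ^ t` -/
noncomputable def middle (k : ℕ) (t : ℝ) : Finset ℕ :=
  (Finset.range (k + 1)).filter fun p => |2 * (p : ℝ) - k| ≤ (k : ℝ) ^ t

lemma dz_eq (p q : ℕ) : dz p q = Pool.Agent.Y760.ZG.mz [p, q] := by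
  rw [dz, Pool.Agent.Y760.ZG.mz]
  refine tsum_congr fun m => ?_
  rw [Pool.Agent.Y760.ZG.hr_cons]
  simp only [Pool.Agent.Y760.ZG.hr_nil]

/-- Let `0 < t < 1 / 3`, `γ + 2 t < 1` and `t < ε`. For all large `k` and all integers `c_p`
(`p ∈ middle k t`), not all zero, with `|c_p| ≤ 2 ^ (k ^ γ)`:
`|∑_p c_p ζ(p, k - p)| > k ^ (-ε k)`. -/
theorem result (t γ ε : ℝ) (ht0 : 0 < t) (ht3 : 3 * t < 1) (hγ : γ + 2 * t < 1) (hε : t < ε) :
    ∃ k0 : ℕ, ∀ k : ℕ, k0 ≤ k → ∀ c : ℕ → ℤ, (∃ p ∈ middle k t, c p ≠ 0) →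
      (∀ p ∈ middle k t, |(c p : ℝ)| ≤ (2 : ℝ) ^ ((k : ℝ) ^ γ)) →
      ((k : ℝ) ^ (ε * k))⁻¹ < |∑ p ∈ middle k t, (c p : ℝ) * dz p (k - p)| := by
  obtain ⟨k0, h0⟩ := Pool.Agent.R404.WZ.middle t γ ε ht0 ht3 hγ hε
  refine ⟨k0, fun k hk c hc hcb => ?_⟩
  have h1 := h0 k hk c hc hcb
  have h2 : ∑ p ∈ middle k t, (c p : ℝ) * dz p (k - p) =
      ∑ p ∈ Pool.Agent.R404.WZ.mid k t, (c p : ℝ) * Pool.Agent.Y760.ZG.mz [p, k - p] :=
    Finset.sum_congr rfl fun p _ => by rw [dz_eq]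
  rw [h2]
  exact h1

end Pool.Agent.Results.MP_9206b6_nt.MiddleArguments
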