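import Mathlib
import Pool.Agent.R404.MZ.Asy

/-!
# Relations between double zeta values `ζ(k - 2b + 1, 2b - 1)` with small `b`

Two results on relations `∑_b c_b ζ(k - 2b + 1, 2b - 1) = 0` supported on small `b`. First, for given
real numbers `c_1, ..., c_B`, not all zero, such a relation is true for at most `4 B ^ 2 - 2` weights
`k`. Second, if `θ < 1 / 5` and `γ < 1 - 2 θ`, then for large `k` there is no nonzero relation with
integers `c_b`, `b ≤ k ^ θ`, of absolute value at most `2 ^ (k ^ γ)`.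
-/

set_option autoImplicit false

namespace Pool.Agent.Results.MP_9206b6_nt.SmallArguments

open Finset

/-- the double zeta value `ζ(p, q) = ∑_{m > n ≥ 1} m ^ (-p) n ^ (-q)` -/
noncomputable def dz (p q : ℕ) : ℝ :=
  ∑' m : ℕ, (∑ n ∈ Finset.Ico 1 (m + 1), 1 / (n : ℝ) ^ q) / ((m + 1 : ℕ) : ℝ) ^ p

lemma hr_one (q m : ℕ) : Pool.Agent.Y760.ZG.hr [q] m = ∑ n ∈ Finset.Ico 1 m, 1 / (n : ℝ) ^ q := by
  rw [Pool.Agent.Y760.ZG.hr_cons]
  exact Finset.sum_congr rfl fun j _ => by rw [Pool.Agent.Y760.ZG.hr_nil]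

lemma dz_mz (p q : ℕ) : dz p q = Pool.Agent.Y760.ZG.mz [p, q] := by
  rw [dz, Pool.Agent.Y760.ZG.mz]
  exact tsum_congr fun m => by rw [hr_one]

lemma dz_zt (k q : ℕ) (h : q ≤ k) :
    dz (k - q) q = Pool.Agent.R404.MZ.zt ((k : ℝ) + ((-(q : ℤ) : ℤ) : ℝ)) [q] := by
  rw [dz, Pool.Agent.R404.MZ.zt]
  refine tsum_congr fun m => ?_
  rw [hr_one, ← Real.rpow_natCast, Nat.cast_sub h]
  push_cast
  rfl

/-- (1) Let `c_1, ..., c_B` be real numbers, not all zero. Then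
`∑_{b ≤ B} c_b ζ(k - 2b + 1, 2b - 1) = 0` for at most `4 B ^ 2 - 2` numbers `k ≥ 2 B + 2`.
(2) Let `0 < θ < 1 / 5`, `γ < 1 - 2 θ` and `ε > 2 θ`. For all large `k`, all `B ≤ k ^ θ` and all
integers `c_1, ..., c_B`, not all zero, of absolute value at most `2 ^ (k ^ γ)`,
`|∑_{b ≤ B} c_b ζ(k - 2b + 1, 2b - 1)| > k ^ (-ε k)`.
(Here `b = j + 1` with `0 ≤ j < B`.) -/
theorem result :
    (∀ (B : ℕ) (c : Fin B → ℝ), c ≠ 0 →
      {k : ℕ | 2 * B + 2 ≤ k ∧
        ∑ j : Fin B, c j * dz (k - (2 * j + 1)) (2 * j + 1) = 0}.encard ≤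
          ((4 * B ^ 2 - 2 : ℕ) : ℕ∞)) ∧
    (∀ θ γ ε : ℝ, 0 < θ → θ < 1 / 5 → γ < 1 - 2 * θ → 2 * θ < ε →
      ∃ k0 : ℕ, ∀ k : ℕ, k0 ≤ k → ∀ B : ℕ, (B : ℝ) ≤ (k : ℝ) ^ θ → ∀ c : Fin B → ℤ, c ≠ 0 →
      (∀ j, |(c j : ℝ)| ≤ (2 : ℝ) ^ ((k : ℝ) ^ γ)) →
      ((k : ℝ) ^ (ε * k))⁻¹ < |∑ j : Fin B, (c j : ℝ) * dz (k - (2 * j + 1)) (2 * j + 1)|) := by
  refine ⟨fun B c hc => ?_, fun θ γ ε hθ hθ5 hγ hε => ?_⟩
  · have hB : 1 ≤ B := by
      by_contra h
      have h0 : B = 0 := by omega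
      subst h0
      exact hc (Subsingleton.elim _ _)
    by_contra hcon
    rw [not_le] at hcon
    set X : Set ℕ := {k : ℕ | 2 * B + 2 ≤ k ∧
        ∑ j : Fin B, c j * dz (k - (2 * j + 1)) (2 * j + 1) = 0} with hX
    have h1 : ((4 * B ^ 2 - 2 + 1 : ℕ) : ℕ∞) ≤ X.encard := by
      have := Order.add_one_le_of_lt hcon
      exact_mod_cast this
    obtain ⟨t, ht, h2⟩ := Set.exists_subset_encard_eq h1
    have hfin : t.Finite := Set.finite_of_encard_eq_coe h2
    rw [hfin.encard_eq_coe_toFinset_card] at h2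
    have h4 : hfin.toFinset.card = 4 * B ^ 2 - 2 + 1 := by exact_mod_cast h2
    have h5 := Pool.Agent.R404.MZ.box_zeros (2 * B - 1) 1 (2 * B - 2)
      (fun j : Fin B => -((2 * (j : ℕ) + 1 : ℕ) : ℤ)) (fun j => [2 * (j : ℕ) + 1]) c
      (fun j => ⟨by simp, fun x hx => by
        rw [List.mem_singleton] at hx
        have := j.2
        omega⟩)
      (fun i j => by
        have h6 := i.2
        have h7 := j.2
        push_cast
        omega)
      (fun i j h => by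
        simp only [Prod.mk.injEq, List.cons.injEq, and_true] at h
        apply Fin.ext
        omega) hc (hfin.toFinset.image fun k : ℕ => (k : ℝ)) (fun s hs => by
        obtain ⟨k, hk, rfl⟩ := Finset.mem_image.1 hs
        obtain ⟨h6, h7⟩ := ht (hfin.mem_toFinset.1 hk)
        refine ⟨fun j => ?_, ?_⟩
        · have h8 := j.2
          have h9 : 1 + (2 * (j : ℕ) + 1) < k := by omega
          have h10 : (1 : ℝ) + (2 * ((j : ℕ) : ℝ) + 1) < k := by exact_mod_cast h9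
          push_cast
          linarith
        · rw [← h7]
          refine Finset.sum_congr rfl fun j _ => ?_
          rw [dz_zt k (2 * (j : ℕ) + 1) (by
            have := j.2
            omega)])
    rw [Finset.card_image_of_injective _ Nat.cast_injective, h4] at h5
    have h6 : (2 * B - 2 + 1) * (2 * B - 1 + 2) ^ 1 = 4 * B ^ 2 - 1 := by
      obtain ⟨b, rfl⟩ := Nat.exists_eq_add_of_le hB
      have e1 : 2 * (1 + b) - 2 + 1 = 2 * b + 1 := by omega
      have e2 : 2 * (1 + b) - 1 + 2 = 2 * b + 3 := by omega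
      rw [e1, e2, pow_one]
      have e3 : 4 * (1 + b) ^ 2 = (2 * b + 1) * (2 * b + 3) + 1 := by ring
      omega
    rw [h6] at h5
    omega
  · obtain ⟨δ, hδ1, hδ2⟩ := exists_between (lt_min hε (by linarith : 2 * θ < 1 - γ))
    rw [lt_min_iff] at hδ2
    set τ : ℝ := (1 - 5 * θ) / 2 with hτ
    obtain ⟨N0, h0⟩ := Pool.Agent.R404.MZ.asyT 1 δ ε γ τ (by linarith) hδ2.1 (by linarith [hδ2.2])
      (by rw [hτ]; linarith) (by rw [hτ]; linarith)
    obtain ⟨N1, h1⟩ := Pool.Agent.R404.MZ.rpow_large (e := δ - 2 * θ) (by linarith) 18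
    obtain ⟨N2, h2⟩ := Pool.Agent.R404.MZ.rpow_large (e := 1 - τ - 5 * θ)
      (by rw [hτ]; linarith) 243
    refine ⟨max (max N0 (max N1 N2)) 1, fun k hk B hB c hc hcC => ?_⟩
    have hk0 := h0 k ((le_max_left _ _).trans ((le_max_left _ _).trans hk))
    have hk1 := h1 k ((le_max_left _ _).trans ((le_max_right _ _).trans
      ((le_max_left _ _).trans hk)))
    have hk2 := h2 k ((le_max_right _ _).trans ((le_max_right _ _).trans
      ((le_max_left _ _).trans hk)))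
    have hkr : (1 : ℝ) ≤ k := by exact_mod_cast (le_max_right _ _).trans hk
    have hkp : (0 : ℝ) < k := by linarith
    have hB1 : 1 ≤ B := by
      by_contra h
      have h0 : B = 0 := by omega
      subst h0
      exact hc (Subsingleton.elim _ _)
    have hq : ((2 * B - 1 + 2 : ℕ) : ℝ) ≤ 3 * (k : ℝ) ^ θ := by
      have h3 : 2 * B - 1 + 2 ≤ 3 * B := by omega
      calc ((2 * B - 1 + 2 : ℕ) : ℝ) ≤ ((3 * B : ℕ) : ℝ) := by exact_mod_cast h3
        _ = 3 * (B : ℝ) := by push_cast; rfl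
        _ ≤ _ := by linarith
    have hq0 : (0 : ℝ) ≤ ((2 * B - 1 + 2 : ℕ) : ℝ) := Nat.cast_nonneg _
    have hJ1 : 2 * ((2 * B - 1 + 2 : ℕ) : ℝ) ^ (1 + 1) ≤ (k : ℝ) ^ δ := by
      calc 2 * ((2 * B - 1 + 2 : ℕ) : ℝ) ^ (1 + 1) ≤ 2 * (3 * (k : ℝ) ^ θ) ^ (1 + 1) := by
            gcongr
        _ = 18 * (k : ℝ) ^ (2 * θ) := by
            rw [mul_pow, two_mul θ, Real.rpow_add hkp]
            ring
        _ ≤ (k : ℝ) ^ (δ - 2 * θ) * (k : ℝ) ^ (2 * θ) := by gcongr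
        _ = _ := by
            rw [← Real.rpow_add hkp]
            congr 1
            ring
    have hJ2 : ((2 * B - 1 + 2 : ℕ) : ℝ) ^ (2 * 1 + 3) ≤ (k : ℝ) ^ (1 - τ) := by
      calc ((2 * B - 1 + 2 : ℕ) : ℝ) ^ (2 * 1 + 3) ≤ (3 * (k : ℝ) ^ θ) ^ (2 * 1 + 3) := by
            gcongr
        _ = 243 * (k : ℝ) ^ (5 * θ) := by
            rw [mul_pow, ← Real.rpow_natCast ((k : ℝ) ^ θ), ← Real.rpow_mul hkp.le]
            norm_num
            rw [mul_comm]
        _ ≤ (k : ℝ) ^ (1 - τ - 5 * θ) * (k : ℝ) ^ (5 * θ) := by gcongr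
        _ = _ := by
            rw [← Real.rpow_add hkp]
            congr 1
            ring
    have hBk : 2 * B + 2 ≤ k := by
      have h3 : (k : ℝ) ^ (1 - τ) ≤ k := by
        calc (k : ℝ) ^ (1 - τ) ≤ (k : ℝ) ^ (1 : ℝ) :=
              Real.rpow_le_rpow_of_exponent_le hkr (by rw [hτ]; linarith)
          _ = k := Real.rpow_one _
      have h4 : (2 * B - 1 + 2) ^ (2 * 1 + 3) ≤ k := by exact_mod_cast hJ2.trans h3
      have h5 : 2 * B - 1 + 2 = 2 * B + 1 := by omega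
      rw [h5] at h4
      have h6 : 2 * B + 2 ≤ (2 * B + 1) ^ 2 := by nlinarith
      have h7 : (2 * B + 1) ^ 2 ≤ (2 * B + 1) ^ (2 * 1 + 3) :=
        Nat.pow_le_pow_right (by omega) (by norm_num)
      omega
    have h3 := hk0 (2 * B - 1) hJ1 hJ2 (Fin B) (fun j => k - (2 * (j : ℕ) + 1))
      (fun j => [2 * (j : ℕ) + 1]) c 0 (fun j => ⟨by simp, fun x hx => by
        rw [List.mem_singleton] at hx
        omega, by
        rw [List.sum_singleton]
        have := j.2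
        omega⟩) (fun j => by
        have := j.2
        omega) (fun i j h => by
        simp only [Prod.mk.injEq, List.cons.injEq, and_true] at h
        apply Fin.ext
        omega) (Or.inr hc) hcC
    have h4 : 0 < ((k : ℝ) ^ (ε * k))⁻¹ := inv_pos.2 (Real.rpow_pos_of_pos hkp _)
    have h5 : (((0 : ℤ) : ℝ) + ∑ j : Fin B, (c j : ℝ) *
        Pool.Agent.Y760.ZG.mz ((k - (2 * (j : ℕ) + 1)) :: [2 * (j : ℕ) + 1])) =
        ∑ j : Fin B, (c j : ℝ) * dz (k - (2 * j + 1)) (2 * j + 1) := by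
      rw [Int.cast_zero, zero_add]
      exact Finset.sum_congr rfl fun j _ => by rw [dz_mz]
    rw [h5] at h3
    linarith

end Pool.Agent.Results.MP_9206b6_nt.SmallArguments
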